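import Pool.Agent.Helper14.TH7.StD

/-!
Project TH7, module RLL: the relation as an operator.
-/

set_option autoImplicit false

namespace Pool.Agent.Helper66.TH7

open Pool.Agent.Helper14.TH7 Pool.Agent.Helper84.S7
open Pool.Agent.Helper4.S7 (Tm)

theorem hRll (hm : S7Trm) : TRll := by
  intro r s F
  obtain ⟨-, i1, -⟩ := hm (ZMod 7) r s (F 1)
  obtain ⟨-, i2, -⟩ := hm (ZMod 7) r s (F 2)
  have hop : ∀ (a b c d : ℤ) (G : Fn7 (7 ^ r) (7 ^ s)) (x : ZMod (7 ^ r)) (y : ZMod (7 ^ s)),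
      op7 a b c d G x y = tr7 a b c d G x y := fun _ _ _ _ _ _ _ => rfl
  have key : ∀ (x : ZMod (7 ^ r)) (y : ZMod (7 ^ s)),
      (∑ f : Fin 3, opL (relH f) (F f)) x y = DfH F x y := by
    intro x y
    rw [Fin.sum_univ_three]
    unfold DfH
    simp [relH, opL, hop, i1, i2]
    ring
  constructor
  · intro h
    funext x y
    rw [key x y]
    exact h x y
  · intro h x y
    rw [← key x y, h]
    rfl

end Pool.Agent.Helper66.TH7
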